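import Pool.Agent.Helper14.LE.Stmts

/-!
# MP_08fe4e_an, planar disproof, module W1: the windows of `D₀`
-/

open MeasureTheory Set Filter Topology InnerProductSpace

noncomputable section

namespace LEP.W1

open LEP

/-! ### Values -/

theorem RL0 (L : ℝ) : RL L 0 = L ^ (7 : ℝ) := rfl
theorem RL1 (L : ℝ) : RL L 1 = L ^ (2 : ℝ) := rfl
theorem ee0 : ee 0 = 3 := rfl
theorem ee1 : ee 1 = 1 := rfl
theorem mm0 : mm 0 = 3 := rfl
theorem mm1 : mm 1 = 9 := rfl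
theorem mp0 : mp 0 = 599 / 200 := by rw [mp, mm0]; norm_num
theorem mp1 : mp 1 = 1799 / 200 := by rw [mp, mm1]; norm_num

/-! ### Asymptotics -/

theorem asym (C c α β : ℝ) (hc : 0 < c) (h : α < β) :
    ∀ᶠ L : ℝ in atTop, C * L ^ α ≤ c * L ^ β := by
  have h1 : Tendsto (fun L : ℝ => C * L ^ (-(β - α))) atTop (𝓝 (C * 0)) :=
    (tendsto_rpow_neg_atTop (sub_pos.2 h)).const_mul C
  rw [mul_zero] at h1
  filter_upwards [h1.eventually_lt_const hc, eventually_gt_atTop 0] with L hL hL0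
  have h2 : L ^ α = L ^ (-(β - α)) * L ^ β := by
    rw [← Real.rpow_add hL0]
    congr 1
    ring
  rw [h2, ← mul_assoc]
  exact mul_le_mul_of_nonneg_right hL.le (Real.rpow_nonneg hL0.le _)

/-! ### The energy -/

theorem cE_eq {a b m : ℝ} (ha : 0 < a) (hb : 0 < b) (hd : m ^ 2 < a * b) :
    cE a b m = (1 / a + 1 / b) / 2 +
      m * (2 * (a * b) + (a + b) * m) / (2 * (a * b) * (a * b - m ^ 2)) := by
  have h1 : a * b - m ^ 2 ≠ 0 := (sub_pos.2 hd).ne'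
  rw [cE]
  field_simp
  ring

theorem inv_low {A a h : ℝ} (hA : 0 < A) (ha : 0 < a) (hle : a ≤ A + h) :
    1 / A - h / A ^ 2 ≤ 1 / a := by
  have h1 : 1 / a - (1 / A - (a - A) / A ^ 2) = (A - a) ^ 2 / (a * A ^ 2) := by
    field_simp
    ring
  have h2 : 0 ≤ (A - a) ^ 2 / (a * A ^ 2) := by positivity
  have h3 : (a - A) / A ^ 2 ≤ h / A ^ 2 := by
    apply div_le_div_of_nonneg_right _ (by positivity)
    linarith
  linarith

theorem low {A0 A1 a b m u0 u1 v0 v1 w : ℝ} (hA0 : 0 < A0) (hA1 : 0 < A1) (ha : 0 < a)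
    (hb : 0 < b) (hm : 0 ≤ m) (hd : m ^ 2 < a * b) (h1 : a ≤ A0 - u0 + v0)
    (h2 : b ≤ A1 - u1 + v1) (hu0 : 0 ≤ u0) (hu1 : 0 ≤ u1) (hv0 : v0 ≤ A0) (hv1 : v1 ≤ A1)
    (hw : w ≤ m) :
    (1 / A0 + 1 / A1) / 2 + (u0 - v0) / (2 * A0 ^ 2) + (u1 - v1) / (2 * A1 ^ 2) +
      w / (4 * (A0 * A1)) ≤ cE a b m := by
  rw [cE_eq ha hb hd]
  have e1 := inv_low hA0 ha (h := v0 - u0) (by linarith)
  have e2 := inv_low hA1 hb (h := v1 - u1) (by linarith)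
  have hab : 0 < a * b := mul_pos ha hb
  have hd' : 0 < a * b - m ^ 2 := sub_pos.2 hd
  have e3 : w / (4 * (A0 * A1)) ≤
      m * (2 * (a * b) + (a + b) * m) / (2 * (a * b) * (a * b - m ^ 2)) := by
    have h3 : m * (2 * (a * b)) / (2 * (a * b) * (a * b)) ≤
        m * (2 * (a * b) + (a + b) * m) / (2 * (a * b) * (a * b - m ^ 2)) := by
      apply div_le_div₀
      · positivity
      · apply mul_le_mul_of_nonneg_left _ hm
        nlinarith [mul_nonneg (add_pos ha hb).le hm]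
      · positivity
      · apply mul_le_mul_of_nonneg_left _ (by positivity)
        nlinarith [sq_nonneg m]
    have h4 : m * (2 * (a * b)) / (2 * (a * b) * (a * b)) = m / (a * b) := by
      field_simp
    rw [h4] at h3
    refine le_trans ?_ h3
    apply div_le_div₀ hm hw hab
    calc a * b ≤ (2 * A0) * (2 * A1) := by
          apply mul_le_mul (by linarith) (by linarith) hb.le (by positivity)
      _ = 4 * (A0 * A1) := by ring
  have e4 : (v0 - u0) / A0 ^ 2 = - (u0 - v0) / A0 ^ 2 := by rw [neg_sub]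
  have e5 : (v1 - u1) / A1 ^ 2 = - (u1 - v1) / A1 ^ 2 := by rw [neg_sub]
  have e6 : (u0 - v0) / (2 * A0 ^ 2) = (u0 - v0) / A0 ^ 2 / 2 := by
    rw [div_div, mul_comm]
  have e7 : (u1 - v1) / (2 * A1 ^ 2) = (u1 - v1) / A1 ^ 2 / 2 := by
    rw [div_div, mul_comm]
  rw [e4, neg_div] at e1
  rw [e5, neg_div] at e2
  rw [e6, e7]
  linarith

theorem inv_up {A a s : ℝ} (hA : 0 < A) (hle : A - s ≤ a) (hs0 : 0 ≤ s) (hs : s ≤ A / 2) :
    1 / a ≤ 1 / A + 2 * s / A ^ 2 := by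
  have h1 : 0 < A - s := by linarith
  have ha : 0 < a := lt_of_lt_of_le h1 hle
  have h2 : 1 / a ≤ 1 / (A - s) := one_div_le_one_div_of_le h1 hle
  refine h2.trans ?_
  rw [div_add_div _ _ hA.ne' (by positivity), div_le_div_iff₀ h1 (by positivity)]
  nlinarith [mul_nonneg hs0 hA.le, mul_nonneg (mul_nonneg hs0 hA.le) (sub_nonneg.2 hs)]

theorem up {A0 A1 a b m s0 s1 μ : ℝ} (hA0 : 0 < A0) (hA1 : 0 < A1) (h1 : A0 - s0 ≤ a)
    (h2 : A1 - s1 ≤ b) (hs0 : 0 ≤ s0) (hs0' : s0 ≤ A0 / 2) (hs1 : 0 ≤ s1) (hs1' : s1 ≤ A1 / 2)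
    (hm : 0 ≤ m) (hmμ : m ≤ μ) (hμ1 : μ ≤ 1) (hμ : μ ≤ A0 * A1 / 8) :
    cE a b m ≤ (1 / A0 + 1 / A1) / 2 + s0 / A0 ^ 2 + s1 / A1 ^ 2 +
      μ * (8 / (A0 * A1) + 8 * (1 / A0 + 1 / A1) / (A0 * A1)) := by
  have ha : A0 / 2 ≤ a := by linarith
  have hb : A1 / 2 ≤ b := by linarith
  have ha0 : 0 < a := by linarith
  have hb0 : 0 < b := by linarith
  have hab : 0 < a * b := mul_pos ha0 hb0
  have hab' : A0 * A1 / 4 ≤ a * b := by
    calc A0 * A1 / 4 = (A0 / 2) * (A1 / 2) := by ring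
      _ ≤ a * b := mul_le_mul ha hb (by positivity) ha0.le
  have hμ0 : 0 ≤ μ := hm.trans hmμ
  have hm2 : m ^ 2 ≤ a * b / 2 := by
    have h3 : m ^ 2 ≤ μ := by
      calc m ^ 2 ≤ μ ^ 2 := pow_le_pow_left₀ hm hmμ 2
        _ ≤ μ := by nlinarith
    linarith
  have hd : m ^ 2 < a * b := by linarith
  rw [cE_eq ha0 hb0 hd]
  have e1 := inv_up hA0 h1 hs0 hs0'
  have e2 := inv_up hA1 h2 hs1 hs1'
  have e3 : m * (2 * (a * b) + (a + b) * m) / (2 * (a * b) * (a * b - m ^ 2)) ≤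
      μ * (8 / (A0 * A1) + 8 * (1 / A0 + 1 / A1) / (A0 * A1)) := by
    have h3 : m * (2 * (a * b) + (a + b) * m) / (2 * (a * b) * (a * b - m ^ 2)) ≤
        m * (2 * (a * b) + (a + b) * m) / (a * b * (a * b)) := by
      apply div_le_div_of_nonneg_left
      · positivity
      · positivity
      · nlinarith
    have h4 : m * (2 * (a * b) + (a + b) * m) / (a * b * (a * b)) =
        m * (2 * (1 / (a * b)) + (1 / a + 1 / b) * (m * (1 / (a * b)))) := by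
      field_simp
      ring
    have h5 : 1 / (a * b) ≤ 4 / (A0 * A1) := by
      rw [div_le_div_iff₀ hab (by positivity)]
      linarith
    have h6 : 1 / a ≤ 2 / A0 := by
      rw [div_le_div_iff₀ ha0 hA0]; linarith
    have h7 : 1 / b ≤ 2 / A1 := by
      rw [div_le_div_iff₀ hb0 hA1]; linarith
    rw [h4] at h3
    refine h3.trans ?_
    have h8 : 2 * (1 / (a * b)) + (1 / a + 1 / b) * (m * (1 / (a * b))) ≤
        2 * (4 / (A0 * A1)) + (2 / A0 + 2 / A1) * (1 * (4 / (A0 * A1))) := by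
      apply add_le_add
      · linarith
      · apply mul_le_mul (by linarith) _ (by positivity) (by positivity)
        apply mul_le_mul (hmμ.trans hμ1) h5 (by positivity) zero_le_one
    have h9 : 2 * (4 / (A0 * A1)) + (2 / A0 + 2 / A1) * (1 * (4 / (A0 * A1))) =
        8 / (A0 * A1) + 8 * (1 / A0 + 1 / A1) / (A0 * A1) := by
      field_simp
      ring
    rw [h9] at h8
    exact mul_le_mul hmμ h8 (by positivity) hμ0
  have e4 : s0 / A0 ^ 2 = 2 * s0 / A0 ^ 2 / 2 := by ring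
  have e5 : s1 / A1 ^ 2 = 2 * s1 / A1 ^ 2 / 2 := by ring
  rw [e4, e5]
  linarith

/-! ### The radial gain -/

theorem gain {L r1 r2 : ℝ} (hL : 1 ≤ L) (hr1 : 0 < r1) (hr2 : 0 < r2)
    (h : r1 < L ^ (3 - 1 / 20 : ℝ) ∨ L ^ (3 + 1 / 20 : ℝ) < r1 ∨ r2 < L ^ (1 - 1 / 20 : ℝ) ∨
      L ^ (1 + 1 / 20 : ℝ) < r2) :
    L ^ (-319 / 20 : ℝ) ≤ (r1 / L ^ (7 : ℝ)) ^ 4 + (r2 / L ^ (2 : ℝ)) ^ 16 +
      1 / (r1 ^ 2 * r2 ^ 10) := by
  have hL0 : 0 < L := by linarith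
  have t1 : 0 ≤ (r1 / L ^ (7 : ℝ)) ^ 4 := by positivity
  have t2 : 0 ≤ (r2 / L ^ (2 : ℝ)) ^ 16 := by positivity
  have t3 : 0 ≤ 1 / (r1 ^ 2 * r2 ^ 10) := by positivity
  -- large `r1`
  have g1 : ∀ s : ℝ, L ^ s ≤ r1 → -319 / 20 ≤ (s - 7) * 4 →
      L ^ (-319 / 20 : ℝ) ≤ (r1 / L ^ (7 : ℝ)) ^ 4 := by
    intro s hs hs'
    calc L ^ (-319 / 20 : ℝ) ≤ L ^ ((s - 7) * 4) := Real.rpow_le_rpow_of_exponent_le hL hs'
      _ = (L ^ s / L ^ (7 : ℝ)) ^ 4 := by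
          rw [← Real.rpow_sub hL0, ← Real.rpow_natCast, ← Real.rpow_mul hL0.le]
          norm_num
      _ ≤ (r1 / L ^ (7 : ℝ)) ^ 4 := by
          apply pow_le_pow_left₀ (by positivity)
          apply div_le_div_of_nonneg_right hs (by positivity)
  have g2 : ∀ s : ℝ, L ^ s ≤ r2 → -319 / 20 ≤ (s - 2) * 16 →
      L ^ (-319 / 20 : ℝ) ≤ (r2 / L ^ (2 : ℝ)) ^ 16 := by
    intro s hs hs'
    calc L ^ (-319 / 20 : ℝ) ≤ L ^ ((s - 2) * 16) := Real.rpow_le_rpow_of_exponent_le hL hs'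
      _ = (L ^ s / L ^ (2 : ℝ)) ^ 16 := by
          rw [← Real.rpow_sub hL0, ← Real.rpow_natCast, ← Real.rpow_mul hL0.le]
          norm_num
      _ ≤ (r2 / L ^ (2 : ℝ)) ^ 16 := by
          apply pow_le_pow_left₀ (by positivity)
          apply div_le_div_of_nonneg_right hs (by positivity)
  have g3 : ∀ s s' : ℝ, r1 ≤ L ^ s → r2 ≤ L ^ s' → -319 / 20 ≤ -(s * 2 + s' * 10) →
      L ^ (-319 / 20 : ℝ) ≤ 1 / (r1 ^ 2 * r2 ^ 10) := by
    intro s s' hs hs' hss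
    calc L ^ (-319 / 20 : ℝ) ≤ L ^ (-(s * 2 + s' * 10)) :=
          Real.rpow_le_rpow_of_exponent_le hL hss
      _ = 1 / ((L ^ s) ^ 2 * (L ^ s') ^ 10) := by
          rw [Real.rpow_neg hL0.le, Real.rpow_add hL0, one_div, ← Real.rpow_natCast,
            ← Real.rpow_natCast (L ^ s'), ← Real.rpow_mul hL0.le, ← Real.rpow_mul hL0.le]
          norm_num
      _ ≤ 1 / (r1 ^ 2 * r2 ^ 10) := by
          apply one_div_le_one_div_of_le (by positivity)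
          apply mul_le_mul (pow_le_pow_left₀ hr1.le hs 2) (pow_le_pow_left₀ hr2.le hs' 10)
            (by positivity) (by positivity)
  rcases h with h | h | h | h
  · rcases le_total r2 (L ^ (1 + 1 / 320 : ℝ)) with h' | h'
    · have := g3 _ _ h.le h' (by norm_num)
      linarith
    · have := g2 _ h' (by norm_num)
      linarith
  · have := g1 _ h.le (by norm_num)
    linarith
  · rcases le_total r1 (L ^ (3 + 1 / 80 : ℝ)) with h' | h'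
    · have := g3 _ _ h' h.le (by norm_num)
      linarith
    · have := g1 _ h' (by norm_num)
      linarith
  · have := g2 _ h.le (by norm_num)
    linarith

/-! ### Geometry of the windows -/

theorem rneg {L r s t q : ℝ} (hL : 1 ≤ L) (h : L ^ s ≤ r) (ht : 0 ≤ t) (hq : q ≤ s * t) :
    r ^ (-t) ≤ L ^ (-q) := by
  have hL0 : 0 < L := by linarith
  calc r ^ (-t) ≤ (L ^ s) ^ (-t) :=
        Real.rpow_le_rpow_of_nonpos (by positivity) h (neg_nonpos.2 ht)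
    _ = L ^ (-(s * t)) := by rw [← Real.rpow_mul hL0.le]; congr 1; ring
    _ ≤ L ^ (-q) := Real.rpow_le_rpow_of_exponent_le hL (neg_le_neg hq)

theorem mem_arm {a b : Fin 2 → ℝ} {i : Fin 2} (ha : al i < a i) (hb : b i < be i) {z : ℂ}
    (hz : 0 < ‖z‖) (harg : Complex.arg z ∈ Icc (a i) (b i)) : z ∈ Arm i :=
  ⟨norm_pos_iff.1 hz, lt_of_lt_of_le ha harg.1, lt_of_le_of_lt harg.2 hb⟩

theorem al_be (i : Fin 2) : 0 < al i ∧ be i < Real.pi := by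
  have hpi := Real.pi_pos
  fin_cases i
  · constructor
    · show 0 < th0
      unfold th0
      positivity
    · show th0 + Real.pi / ((3 : ℕ) : ℝ) < Real.pi
      unfold th0
      push_cast
      linarith
  · constructor
    · show 0 < 20 * th0
      unfold th0
      positivity
    · show 20 * th0 + Real.pi / ((9 : ℕ) : ℝ) < Real.pi
      unfold th0
      push_cast
      linarith

theorem exists_pt {r θ : ℝ} (hr : 0 < r) (i : Fin 2) (h : θ ∈ Ioo (al i) (be i)) :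
    ∃ z : ℂ, ‖z‖ = r ∧ Complex.arg z = θ := by
  obtain ⟨h1, h2⟩ := al_be i
  refine ⟨(r : ℂ) * (Complex.cos θ + Complex.sin θ * Complex.I), ?_, ?_⟩
  · rw [← Complex.exp_mul_I, norm_mul, Complex.norm_exp_ofReal_mul_I, mul_one,
      Complex.norm_of_nonneg hr.le]
  · exact Complex.arg_mul_cos_add_sin_mul_I hr
      ⟨by linarith [h.1, Real.pi_pos], by linarith [h.2]⟩

/-- the cross term, upper bound -/
theorem cross (hSEC : ST_SEC0) {D : Set ℂ} {C : ℝ} (hC : 0 < C) {x1 x2 : ℂ} (h1 : x1 ∈ Arm 0)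
    (h2 : x2 ∈ Arm 1)
    (hG : Gam D x1 x2 ≤ C * (‖x1‖ ^ (2 - mp 0) * ‖x2‖ ^ (-mp 1) +
      ‖x1‖ ^ (-mp 0) * ‖x2‖ ^ (2 - mp 1)))
    {L s1 s2 q : ℝ} (hL : 1 ≤ L) (hs1 : L ^ s1 ≤ ‖x1‖) (hs2 : L ^ s2 ≤ ‖x2‖)
    (hq1 : q ≤ s1 * (399 / 200) + s2 * (1999 / 200))
    (hq2 : q ≤ s1 * (799 / 200) + s2 * (1599 / 200)) :
    Gt D x1 x2 ≤ 800 * C * L ^ (-q) := by
  have hL0 : 0 < L := by linarith
  have hn1 : 0 < ‖x1‖ := norm_pos_iff.2 h1.1
  have hn2 : 0 < ‖x2‖ := norm_pos_iff.2 h2.1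
  have p1 := (hSEC.1 0 x1 h1).2.1
  have p2 := (hSEC.1 1 x2 h2).2.1
  have hp1 : 0 < psi x1 := lt_of_lt_of_le (by positivity) p1
  have hp2 : 0 < psi x2 := lt_of_lt_of_le (by positivity) p2
  rw [mp0, mp1] at hG
  set B : ℝ := ‖x1‖ ^ (2 - 599 / 200 : ℝ) * ‖x2‖ ^ (-(1799 / 200) : ℝ) +
      ‖x1‖ ^ (-(599 / 200) : ℝ) * ‖x2‖ ^ (2 - 1799 / 200 : ℝ) with hB
  have hB0 : 0 ≤ B := by positivity
  have e1 : Gt D x1 x2 ≤ C * B / (‖x1‖ / 20 * (‖x2‖ / 20)) := by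
    rw [Gt]
    calc Gam D x1 x2 / (psi x1 * psi x2) ≤ C * B / (psi x1 * psi x2) :=
          div_le_div_of_nonneg_right hG (by positivity)
      _ ≤ _ := by
          apply div_le_div_of_nonneg_left (by positivity) (by positivity)
          exact mul_le_mul p1 p2 (by positivity) hp1.le
  have e2 : C * B / (‖x1‖ / 20 * (‖x2‖ / 20)) = 400 * C *
      (‖x1‖ ^ (-(399 / 200) : ℝ) * ‖x2‖ ^ (-(1999 / 200) : ℝ) +
        ‖x1‖ ^ (-(799 / 200) : ℝ) * ‖x2‖ ^ (-(1599 / 200) : ℝ)) := by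
    have a1 : ‖x1‖ ^ (2 - 599 / 200 : ℝ) = ‖x1‖ ^ (-(399 / 200) : ℝ) * ‖x1‖ := by
      rw [← Real.rpow_add_one hn1.ne']; norm_num
    have a2 : ‖x1‖ ^ (-(599 / 200) : ℝ) = ‖x1‖ ^ (-(799 / 200) : ℝ) * ‖x1‖ := by
      rw [← Real.rpow_add_one hn1.ne']; norm_num
    have a3 : ‖x2‖ ^ (-(1799 / 200) : ℝ) = ‖x2‖ ^ (-(1999 / 200) : ℝ) * ‖x2‖ := by
      rw [← Real.rpow_add_one hn2.ne']; norm_num
    have a4 : ‖x2‖ ^ (2 - 1799 / 200 : ℝ) = ‖x2‖ ^ (-(1599 / 200) : ℝ) * ‖x2‖ := by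
      rw [← Real.rpow_add_one hn2.ne']; norm_num
    rw [hB, a1, a2, a3, a4]
    field_simp
    ring
  rw [e2] at e1
  have key : ∀ t1 t2 : ℝ, 0 ≤ t1 → 0 ≤ t2 → q ≤ s1 * t1 + s2 * t2 →
      ‖x1‖ ^ (-t1) * ‖x2‖ ^ (-t2) ≤ L ^ (-q) := by
    intro t1 t2 ht1 ht2 hq
    calc ‖x1‖ ^ (-t1) * ‖x2‖ ^ (-t2) ≤ L ^ (-(s1 * t1)) * L ^ (-(s2 * t2)) :=
          mul_le_mul (rneg hL hs1 ht1 le_rfl) (rneg hL hs2 ht2 le_rfl) (by positivity)
            (by positivity)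
      _ = L ^ (-(s1 * t1 + s2 * t2)) := by rw [← Real.rpow_add hL0]; congr 1; ring
      _ ≤ L ^ (-q) := Real.rpow_le_rpow_of_exponent_le hL (neg_le_neg hq)
  have k1 := key (399 / 200) (1999 / 200) (by norm_num) (by norm_num) hq1
  have k2 := key (799 / 200) (1599 / 200) (by norm_num) (by norm_num) hq2
  calc Gt D x1 x2 ≤ _ := e1
    _ ≤ 400 * C * (L ^ (-q) + L ^ (-q)) := by
        apply mul_le_mul_of_nonneg_left (add_le_add k1 k2) (by positivity)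
    _ = 800 * C * L ^ (-q) := by ring

theorem aux_div {A e : ℝ} (hA : 0 < A) (he : A / 2 ≤ e) : 1 / (4 * A) ≤ e / (2 * A ^ 2) := by
  rw [div_le_div_iff₀ (by positivity) (by positivity)]
  nlinarith

theorem aux_four {g h : ℝ} (hg : 0 < g) (hh : 0 < h) : (g / 4) * (h / 4) < (g / 2) * (h / 2) := by
  nlinarith [mul_pos hg hh]

theorem aux_sq {L : ℝ} (hL : 4 ≤ L) : (16 : ℝ) ≤ L ^ (2 : ℝ) := by
  rw [Real.rpow_two]; nlinarith

/-! ### The main theorem -/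

theorem st_W1 (hSEC : ST_SEC0) (hS1 : ST_S1) (hE1 : ST_E1) (hE2 : ST_E2) (hE3 : ST_E3)
    (hE4 : ST_E4) (hGEO : ST_GEO) : ST_W1 := by
  intro a b a' b' hA ε hε
  obtain ⟨-, hgbdd, hgs, hglow, -⟩ := hS1
  -- constants
  have hA0 := hgs 0
  have hA1 := hgs 1
  set A0 : ℝ := gs 0 with hA0def
  set A1 : ℝ := gs 1 with hA1def
  obtain ⟨g0, hg0, hg0'⟩ := hglow 0 (a 0) (b 0) (hA.h1 0) (hA.h5 0)
  obtain ⟨g1, hg1, hg1'⟩ := hglow 1 (a 1) (b 1) (hA.h1 1) (hA.h5 1)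
  obtain ⟨c10, C10, hc10, hC10, hE10⟩ := hE1.2 0 (a 0) (b 0) (hA.h1 0) (hA.h5 0)
  obtain ⟨c11, C11, hc11, hC11, hE11⟩ := hE1.2 1 (a 1) (b 1) (hA.h1 1) (hA.h5 1)
  obtain ⟨C2, hC2, hE2'⟩ := hE2
  obtain ⟨c3, hc3, hE3'⟩ := hE3 a b hA.h1 hA.h5
  obtain ⟨C4, hC4, hE4'⟩ := hE4
  set κ : ℝ := min (min (c10 / (2 * A0 ^ 2)) (c11 / (2 * A1 ^ 2)))
    (min (c3 / (4 * (A0 * A1))) (min (1 / (4 * A0)) (1 / (4 * A1)))) with hκ
  have hκ0 : 0 < κ := by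
    simp only [hκ, lt_min_iff]
    refine ⟨⟨?_, ?_⟩, ?_, ?_, ?_⟩ <;> positivity
  have hκ1 : κ ≤ c10 / (2 * A0 ^ 2) := (min_le_left _ _).trans (min_le_left _ _)
  have hκ2 : κ ≤ c11 / (2 * A1 ^ 2) := (min_le_left _ _).trans (min_le_right _ _)
  have hκ3 : κ ≤ c3 / (4 * (A0 * A1)) := (min_le_right _ _).trans (min_le_left _ _)
  have hκ4 : κ ≤ 1 / (4 * A0) :=
    (min_le_right _ _).trans ((min_le_right _ _).trans (min_le_left _ _))
  have hκ5 : κ ≤ 1 / (4 * A1) :=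
    (min_le_right _ _).trans ((min_le_right _ _).trans (min_le_right _ _))
  set K1 : ℝ := C10 / (2 * A0 ^ 2) + C11 / (2 * A1 ^ 2) with hK1
  set Kμ : ℝ := 8 / (A0 * A1) + 8 * (1 / A0 + 1 / A1) / (A0 * A1) with hKμ
  have hKμ0 : 0 < Kμ := by positivity
  set K2 : ℝ := (1 + C2) / A0 ^ 2 + (1 + C2) / A1 ^ 2 + 800 * C4 * Kμ with hK2
  have hK20 : 0 < K2 := by positivity
  -- conditions on `L`
  have ev : ∀ᶠ L : ℝ in atTop, 4 ≤ L := eventually_ge_atTop 4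
  filter_upwards [ev, asym 8 1 (31 / 10) 7 one_pos (by norm_num),
    asym 8 1 (11 / 10) 2 one_pos (by norm_num),
    asym 32 1 0 (9 / 10) one_pos (by norm_num),
    asym C10 A0 (-(161 / 10)) 0 hA0 (by norm_num),
    asym C11 A1 (-(161 / 10)) 0 hA1 (by norm_num),
    asym C2 (g0 / 2) (-14) 0 (by positivity) (by norm_num),
    asym C2 (g1 / 2) (-14) 0 (by positivity) (by norm_num),
    asym (800 * C4) (min (g0 / 4) (g1 / 4)) (-14) 0 (by positivity) (by norm_num),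
    asym (1 + C2) (A0 / 2) (-(799 / 50)) 0 (by positivity) (by norm_num),
    asym (1 + C2) (A1 / 2) (-(799 / 50)) 0 (by positivity) (by norm_num),
    asym (800 * C4) 1 (-(799 / 50)) 0 (by positivity) (by norm_num),
    asym (800 * C4) (A0 * A1 / 8) (-(799 / 50)) 0 (by positivity) (by norm_num),
    asym K1 (κ / 4) (-(161 / 10)) (-319 / 20) (by positivity) (by norm_num),
    asym K2 (κ / 4) (-(799 / 50)) (-319 / 20) (by positivity) (by norm_num),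
    asym K2 ε (-(799 / 50)) 0 hε (by norm_num),
    asym 1 (A0 / 4) (-17) 0 (by positivity) (by norm_num),
    asym 1 (A1 / 4) (-17) 0 (by positivity) (by norm_num)]
    with L hL4 hR0 hR1 h32 hv0 hv1 hl0 hl1 hx hs0 hs1 hμ1 hμ2 hKK1 hKK2 hKε hθ0 hθ1
  rw [Real.rpow_zero, mul_one] at h32 hv0 hv1 hl0 hl1 hx hs0 hs1 hμ1 hμ2 hKε hθ0 hθ1
  rw [one_mul] at hR0 hR1 h32 hθ0 hθ1
  have hL1 : 1 ≤ L := by linarith
  have hL0 : 0 < L := by linarith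
  have mono : ∀ {s t : ℝ}, s ≤ t → L ^ s ≤ L ^ t := fun h =>
    Real.rpow_le_rpow_of_exponent_le hL1 h
  have hRL : ∀ i, 16 ≤ RL L i := by
    intro i
    have h2 : (16 : ℝ) ≤ L ^ (2 : ℝ) := aux_sq hL4
    fin_cases i
    · exact h2.trans (mono (by norm_num))
    · exact h2
  have hRL1 : ∀ i, 1 ≤ RL L i := fun i => le_trans (by norm_num) (hRL i)
  obtain ⟨hProf, -, -, -, -, hArmR, -, -⟩ := hGEO.2 (RL L) hRL1
  have hSub : Sub (RL L) (R0 (RL L)) := ⟨hRL, hProf, fun _ => le_rfl⟩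
  set D : Set ℂ := Ddom (R0 (RL L)) with hD
  -- basic facts on the outer windows
  have w0 : ∀ y ∈ Wo a b L 0, y ∈ Arm 0 ∧ y ∈ D ∧ 32 ≤ ‖y‖ ∧ 8 * ‖y‖ ≤ RL L 0 ∧
      L ^ (29 / 10 : ℝ) ≤ ‖y‖ ∧ ‖y‖ ≤ L ^ (31 / 10 : ℝ) ∧ Complex.arg y ∈ Icc (a 0) (b 0) := by
    rintro y ⟨hy1, hy2, hy3⟩
    rw [ee0] at hy2 hy3
    have hy2' : L ^ (29 / 10 : ℝ) ≤ ‖y‖ := (mono (by norm_num)).trans hy2
    have hy3' : ‖y‖ ≤ L ^ (31 / 10 : ℝ) := hy3.trans (mono (by norm_num))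
    have hn : 0 < ‖y‖ := lt_of_lt_of_le (by positivity) hy2'
    have harm := mem_arm (hA.h1 0) (hA.h5 0) hn hy1
    have h8 : 8 * ‖y‖ ≤ RL L 0 := by
      rw [RL0]
      exact (mul_le_mul_of_nonneg_left hy3' (by norm_num)).trans hR0
    refine ⟨harm, hArmR 0 ⟨harm, by linarith⟩, ?_, h8, hy2', hy3', hy1⟩
    exact h32.trans ((mono (by norm_num)).trans hy2')
  have w1 : ∀ y ∈ Wo a b L 1, y ∈ Arm 1 ∧ y ∈ D ∧ 32 ≤ ‖y‖ ∧ 8 * ‖y‖ ≤ RL L 1 ∧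
      L ^ (9 / 10 : ℝ) ≤ ‖y‖ ∧ ‖y‖ ≤ L ^ (11 / 10 : ℝ) ∧ Complex.arg y ∈ Icc (a 1) (b 1) := by
    rintro y ⟨hy1, hy2, hy3⟩
    rw [ee1] at hy2 hy3
    have hy2' : L ^ (9 / 10 : ℝ) ≤ ‖y‖ := (mono (by norm_num)).trans hy2
    have hy3' : ‖y‖ ≤ L ^ (11 / 10 : ℝ) := hy3.trans (mono (by norm_num))
    have hn : 0 < ‖y‖ := lt_of_lt_of_le (by positivity) hy2'
    have harm := mem_arm (hA.h1 1) (hA.h5 1) hn hy1
    have h8 : 8 * ‖y‖ ≤ RL L 1 := by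
      rw [RL1]
      exact (mul_le_mul_of_nonneg_left hy3' (by norm_num)).trans hR1
    refine ⟨harm, hArmR 1 ⟨harm, by linarith⟩, h32.trans hy2', h8, hy2', hy3', hy1⟩
  -- the diagonal entries
  have d0 : ∀ y ∈ Wo a b L 0, g0 / 2 ≤ Gt D y y ∧
      Gt D y y ≤ gam 0 (Complex.arg y) - c10 * (‖y‖ / L ^ (7 : ℝ)) ^ 4 +
        C10 * L ^ (-(161 / 10) : ℝ) := by
    intro y hy
    obtain ⟨k1, k2, k3, k4, k5, k6, k7⟩ := w0 y hy
    constructor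
    · have h1 := hE2' (RL L) hRL 0 y k1 (by linarith)
      have h2 : (‖y‖ / RL L 0) ^ (2 * mm 0 - 2) ≤ L ^ (-14 : ℝ) := by
        show (‖y‖ / L ^ (7 : ℝ)) ^ 4 ≤ L ^ (-14 : ℝ)
        calc (‖y‖ / L ^ (7 : ℝ)) ^ 4 ≤ (L ^ (31 / 10 : ℝ) / L ^ (7 : ℝ)) ^ 4 := by
              apply pow_le_pow_left₀ (by positivity)
              apply div_le_div_of_nonneg_right k6 (by positivity)
          _ = L ^ (-(156 / 10) : ℝ) := by
              rw [← Real.rpow_sub hL0, ← Real.rpow_natCast, ← Real.rpow_mul hL0.le]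
              norm_num
          _ ≤ L ^ (-14 : ℝ) := mono (by norm_num)
      have h3 := mul_le_mul_of_nonneg_left h2 hC2.le
      have h4 := hg0' _ k7
      linarith
    · have h1 := hE10 (RL L) (R0 (RL L)) hSub y k2 k7 (by linarith) (by linarith)
      have h2 : ‖y‖ ^ (-2 * mp 0) ≤ L ^ (-(161 / 10) : ℝ) := by
        rw [mp0, show (-2 * (599 / 200) : ℝ) = -(599 / 100) by norm_num]
        exact rneg hL1 k5 (by norm_num) (by norm_num)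
      have h3 := mul_le_mul_of_nonneg_left h2 hC10.le
      exact h1.trans (by
        show gam 0 (Complex.arg y) - c10 * (‖y‖ / L ^ (7 : ℝ)) ^ 4 + C10 * ‖y‖ ^ (-2 * mp 0) ≤ _
        linarith)
  have d1 : ∀ y ∈ Wo a b L 1, g1 / 2 ≤ Gt D y y ∧
      Gt D y y ≤ gam 1 (Complex.arg y) - c11 * (‖y‖ / L ^ (2 : ℝ)) ^ 16 +
        C11 * L ^ (-(161 / 10) : ℝ) := by
    intro y hy
    obtain ⟨k1, k2, k3, k4, k5, k6, k7⟩ := w1 y hy
    constructor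
    · have h1 := hE2' (RL L) hRL 1 y k1 (by linarith)
      have h2 : (‖y‖ / RL L 1) ^ (2 * mm 1 - 2) ≤ L ^ (-14 : ℝ) := by
        show (‖y‖ / L ^ (2 : ℝ)) ^ 16 ≤ L ^ (-14 : ℝ)
        calc (‖y‖ / L ^ (2 : ℝ)) ^ 16 ≤ (L ^ (11 / 10 : ℝ) / L ^ (2 : ℝ)) ^ 16 := by
              apply pow_le_pow_left₀ (by positivity)
              apply div_le_div_of_nonneg_right k6 (by positivity)
          _ = L ^ (-(144 / 10) : ℝ) := by
              rw [← Real.rpow_sub hL0, ← Real.rpow_natCast, ← Real.rpow_mul hL0.le]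
              norm_num
          _ ≤ L ^ (-14 : ℝ) := mono (by norm_num)
      have h3 := mul_le_mul_of_nonneg_left h2 hC2.le
      have h4 := hg1' _ k7
      linarith
    · have h1 := hE11 (RL L) (R0 (RL L)) hSub y k2 k7 (by linarith) (by linarith)
      have h2 : ‖y‖ ^ (-2 * mp 1) ≤ L ^ (-(161 / 10) : ℝ) := by
        rw [mp1, show (-2 * (1799 / 200) : ℝ) = -(1799 / 100) by norm_num]
        exact rneg hL1 k5 (by norm_num) (by norm_num)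
      have h3 := mul_le_mul_of_nonneg_left h2 hC11.le
      exact h1.trans (by
        show gam 1 (Complex.arg y) - c11 * (‖y‖ / L ^ (2 : ℝ)) ^ 16 + C11 * ‖y‖ ^ (-2 * mp 1) ≤ _
        linarith)
  -- the cross term
  have cr : ∀ y1 ∈ Wo a b L 0, ∀ y2 ∈ Wo a b L 1,
      c3 / (‖y1‖ ^ 2 * ‖y2‖ ^ 10) ≤ Gt D y1 y2 ∧ Gt D y1 y2 ≤ 800 * C4 * L ^ (-14 : ℝ) := by
    intro y1 hy1 y2 hy2
    obtain ⟨k1, k2, k3, k4, k5, k6, k7⟩ := w0 y1 hy1
    obtain ⟨l1, l2, l3, l4, l5, l6, l7⟩ := w1 y2 hy2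
    refine ⟨hE3' (RL L) hRL y1 y2 k7 l7 k3 l3 k4 l4, ?_⟩
    exact cross hSEC hC4 k1 l1
      (hE4' (RL L) (R0 (RL L)) hSub y1 k2 y2 l2 k1 l1 (by linarith) (by linarith))
      hL1 k5 l5 (by norm_num) (by norm_num)
  have det : ∀ y1 ∈ Wo a b L 0, ∀ y2 ∈ Wo a b L 1,
      0 < Gt D y1 y1 ∧ 0 < Gt D y2 y2 ∧ 0 ≤ Gt D y1 y2 ∧
        Gt D y1 y2 ^ 2 < Gt D y1 y1 * Gt D y2 y2 := by
    intro y1 hy1 y2 hy2
    have e0 := (d0 y1 hy1).1
    have e1 := (d1 y2 hy2).1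
    obtain ⟨e2, e3⟩ := cr y1 hy1 y2 hy2
    have hp1 : 0 < Gt D y1 y1 := by linarith
    have hp2 : 0 < Gt D y2 y2 := by linarith
    have hp3 : 0 ≤ Gt D y1 y2 := le_trans (by positivity) e2
    refine ⟨hp1, hp2, hp3, ?_⟩
    have e4 : Gt D y1 y2 ≤ g0 / 4 := e3.trans (hx.trans (min_le_left _ _))
    have e5 : Gt D y1 y2 ≤ g1 / 4 := e3.trans (hx.trans (min_le_right _ _))
    calc Gt D y1 y2 ^ 2 = Gt D y1 y2 * Gt D y1 y2 := by ring
      _ ≤ (g0 / 4) * (g1 / 4) := mul_le_mul e4 e5 hp3 (by positivity)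
      _ < (g0 / 2) * (g1 / 2) := aux_four hg0 hg1
      _ ≤ _ := mul_le_mul e0 e1 (by positivity) hp1.le
  -- the inner windows are inside the outer ones
  have wio : ∀ i, ∀ y ∈ Wi a' b' L i, y ∈ Wo a b L i := by
    rintro i y ⟨hy1, hy2, hy3⟩
    refine ⟨⟨(hA.h2 i).le.trans hy1.1, hy1.2.trans (hA.h4 i).le⟩, (mono ?_).trans hy2,
      hy3.trans (mono ?_)⟩ <;> linarith
  -- the centre
  have ctr : ∀ i : Fin 2, L ^ (-17 : ℝ) ≤ gs i / 4 → ∃ x ∈ Wi a' b' L i, ‖x‖ = L ^ ee i ∧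
      gs i - L ^ (-17 : ℝ) ≤ gam i (Complex.arg x) := by
    intro i hi
    have hgi := hgs i
    have hne : (gam i '' Ioo (al i) (be i)).Nonempty := by
      refine ⟨gam i (a i), a i, ⟨hA.h1 i, ?_⟩, rfl⟩
      linarith [hA.h2 i, hA.h3 i, hA.h4 i, hA.h5 i]
    obtain ⟨_, ⟨t, ht, rfl⟩, ht'⟩ := exists_lt_of_lt_csSup hne
      (show gs i - L ^ (-17 : ℝ) < sSup (gam i '' Ioo (al i) (be i)) by
        show gs i - L ^ (-17 : ℝ) < gs i
        linarith [Real.rpow_pos_of_pos hL0 (-17)])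
    have ht2 : t ∈ Icc (a' i) (b' i) := by
      by_contra hcon
      have := hA.half i t ht hcon
      linarith
    obtain ⟨z, hz1, hz2⟩ := exists_pt (Real.rpow_pos_of_pos hL0 (ee i)) i ht
    refine ⟨z, ⟨by rw [hz2]; exact ht2, ?_, ?_⟩, hz1, by rw [hz2]; exact ht'.le⟩
    · rw [hz1]; exact mono (by linarith)
    · rw [hz1]; exact mono (by linarith)
  obtain ⟨x1, hx1, hx1n, hx1g⟩ := ctr 0 hθ0
  obtain ⟨x2, hx2, hx2n, hx2g⟩ := ctr 1 hθ1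
  rw [ee0] at hx1n
  rw [ee1] at hx2n
  have hx1o := wio 0 x1 hx1
  have hx2o := wio 1 x2 hx2
  have h17 : L ^ (-17 : ℝ) ≤ L ^ (-(799 / 50) : ℝ) := mono (by norm_num)
  have h16 : L ^ (-16 : ℝ) ≤ L ^ (-(799 / 50) : ℝ) := mono (by norm_num)
  have s0 : A0 - (1 + C2) * L ^ (-(799 / 50) : ℝ) ≤ Gt D x1 x1 := by
    obtain ⟨k1, k2, k3, k4, k5, k6, k7⟩ := w0 x1 hx1o
    have h1 := hE2' (RL L) hRL 0 x1 k1 (by linarith)
    have h2 : (‖x1‖ / RL L 0) ^ (2 * mm 0 - 2) = L ^ (-16 : ℝ) := by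
      show (‖x1‖ / L ^ (7 : ℝ)) ^ 4 = L ^ (-16 : ℝ)
      rw [hx1n, ← Real.rpow_sub hL0, ← Real.rpow_natCast, ← Real.rpow_mul hL0.le]
      norm_num
    rw [h2] at h1
    have h3 := mul_le_mul_of_nonneg_left h16 hC2.le
    linarith
  have s1 : A1 - (1 + C2) * L ^ (-(799 / 50) : ℝ) ≤ Gt D x2 x2 := by
    obtain ⟨k1, k2, k3, k4, k5, k6, k7⟩ := w1 x2 hx2o
    have h1 := hE2' (RL L) hRL 1 x2 k1 (by linarith)
    have h2 : (‖x2‖ / RL L 1) ^ (2 * mm 1 - 2) = L ^ (-16 : ℝ) := by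
      show (‖x2‖ / L ^ (2 : ℝ)) ^ 16 = L ^ (-16 : ℝ)
      rw [hx2n, ← Real.rpow_sub hL0, ← Real.rpow_natCast, ← Real.rpow_mul hL0.le]
      norm_num
    rw [h2] at h1
    have h3 := mul_le_mul_of_nonneg_left h16 hC2.le
    linarith
  have sμ : Gt D x1 x2 ≤ 800 * C4 * L ^ (-(799 / 50) : ℝ) := by
    obtain ⟨k1, k2, k3, k4, k5, k6, k7⟩ := w0 x1 hx1o
    obtain ⟨l1, l2, l3, l4, l5, l6, l7⟩ := w1 x2 hx2o
    exact cross hSEC hC4 k1 l1
      (hE4' (RL L) (R0 (RL L)) hSub x1 k2 x2 l2 k1 l1 (by linarith) (by linarith))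
      hL1 hx1n.ge hx2n.ge (by norm_num) (by norm_num)
  have hLp : 0 < L ^ (-(799 / 50) : ℝ) := Real.rpow_pos_of_pos hL0 _
  have cup : cD D x1 x2 ≤ csum + K2 * L ^ (-(799 / 50) : ℝ) := by
    have h1 := up (m := Gt D x1 x2) hA0 hA1 s0 s1 (by positivity) hs0 (by positivity) hs1
      (det x1 hx1o x2 hx2o).2.2.1 sμ hμ1 hμ2
    show cE (Gt D x1 x1) (Gt D x2 x2) (Gt D x1 x2) ≤ (1 / A0 + 1 / A1) / 2 + _
    refine h1.trans (le_of_eq ?_)
    rw [hK2, hKμ]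
    ring
  refine ⟨?_, fun y1 hy1 y2 hy2 => (det y1 hy1 y2 hy2).2.2.2, x1, hx1, x2, hx2, ?_,
    κ / 2 * L ^ (-319 / 20 : ℝ), by positivity, ?_⟩
  · intro i
    fin_cases i
    · exact fun y hy => (w0 y hy).2.1
    · exact fun y hy => (w1 y hy).2.1
  · linarith
  · intro y1 hy1 y2 hy2 hout
    obtain ⟨k1, k2, k3, k4, k5, k6, k7⟩ := w0 y1 hy1
    obtain ⟨l1, l2, l3, l4, l5, l6, l7⟩ := w1 y2 hy2
    obtain ⟨p1, p2, p3, p4⟩ := det y1 hy1 y2 hy2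
    have u0 := (d0 y1 hy1).2
    have u1 := (d1 y2 hy2).2
    have ucr := (cr y1 hy1 y2 hy2).1
    have hn1 : 0 < ‖y1‖ := by linarith
    have hn2 : 0 < ‖y2‖ := by linarith
    have gl0 : gam 0 (Complex.arg y1) ≤ A0 :=
      le_csSup (hgbdd 0) ⟨_, ⟨k1.2.1, k1.2.2⟩, rfl⟩
    have gl1 : gam 1 (Complex.arg y2) ≤ A1 :=
      le_csSup (hgbdd 1) ⟨_, ⟨l1.2.1, l1.2.2⟩, rfl⟩
    set t1 : ℝ := (‖y1‖ / L ^ (7 : ℝ)) ^ 4 with ht1
    set t2 : ℝ := (‖y2‖ / L ^ (2 : ℝ)) ^ 16 with ht2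
    set t3 : ℝ := 1 / (‖y1‖ ^ 2 * ‖y2‖ ^ 10) with ht3
    have ht1' : 0 ≤ t1 := by positivity
    have ht2' : 0 ≤ t2 := by positivity
    have ht3' : 0 ≤ t3 := by positivity
    have ucr' : c3 * t3 ≤ Gt D y1 y2 := by
      rw [ht3, mul_one_div]; exact ucr
    have hLq : L ^ (-319 / 20 : ℝ) ≤ 1 := by
      calc L ^ (-319 / 20 : ℝ) ≤ L ^ (0 : ℝ) := mono (by norm_num)
        _ = 1 := Real.rpow_zero _
    -- the extra gain of the angles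
    set e0 : ℝ := A0 - gam 0 (Complex.arg y1) with he0
    set e1 : ℝ := A1 - gam 1 (Complex.arg y2) with he1
    have he0' : 0 ≤ e0 := sub_nonneg.2 gl0
    have he1' : 0 ≤ e1 := sub_nonneg.2 gl1
    have hlow := low (u0 := e0 + c10 * t1) (u1 := e1 + c11 * t2)
      (v0 := C10 * L ^ (-(161 / 10) : ℝ)) (v1 := C11 * L ^ (-(161 / 10) : ℝ)) (w := c3 * t3)
      hA0 hA1 p1 p2 p3 p4 (by rw [he0]; linarith) (by rw [he1]; linarith) (by positivity)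
      (by positivity) hv0 hv1 ucr'
    have hgain : κ * L ^ (-319 / 20 : ℝ) ≤ (e0 + c10 * t1) / (2 * A0 ^ 2) +
        (e1 + c11 * t2) / (2 * A1 ^ 2) + c3 * t3 / (4 * (A0 * A1)) := by
      have f1 : (e0 + c10 * t1) / (2 * A0 ^ 2) = e0 / (2 * A0 ^ 2) + c10 / (2 * A0 ^ 2) * t1 := by
        ring
      have f2 : (e1 + c11 * t2) / (2 * A1 ^ 2) = e1 / (2 * A1 ^ 2) + c11 / (2 * A1 ^ 2) * t2 := by
        ring
      have f3 : c3 * t3 / (4 * (A0 * A1)) = c3 / (4 * (A0 * A1)) * t3 := by ring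
      have n1 : 0 ≤ e0 / (2 * A0 ^ 2) := by positivity
      have n2 : 0 ≤ e1 / (2 * A1 ^ 2) := by positivity
      have m1 := mul_le_mul_of_nonneg_right hκ1 ht1'
      have m2 := mul_le_mul_of_nonneg_right hκ2 ht2'
      have m3 := mul_le_mul_of_nonneg_right hκ3 ht3'
      have m1' : 0 ≤ κ * t1 := by positivity
      have m2' : 0 ≤ κ * t2 := by positivity
      have m3' : 0 ≤ κ * t3 := by positivity
      rw [f1, f2, f3]
      by_cases ha0 : Complex.arg y1 ∈ Icc (a' 0) (b' 0)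
      · by_cases ha1 : Complex.arg y2 ∈ Icc (a' 1) (b' 1)
        · have hg := gain hL1 hn1 hn2 (by
            by_contra hcon
            push Not at hcon
            obtain ⟨q1, q2, q3, q4⟩ := hcon
            rcases hout with h | h
            · exact h ⟨ha0, q1, q2⟩
            · exact h ⟨ha1, q3, q4⟩)
          have := mul_le_mul_of_nonneg_left hg hκ0.le
          have e9 : κ * (t1 + t2 + t3) = κ * t1 + κ * t2 + κ * t3 := by ring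
          rw [e9] at this
          linarith
        · have h1 := hA.half 1 _ ⟨l1.2.1, l1.2.2⟩ ha1
          have h2 : A1 / 2 ≤ e1 := by rw [he1]; linarith
          have h3 : 1 / (4 * A1) ≤ e1 / (2 * A1 ^ 2) := aux_div hA1 h2
          have h4 : κ * L ^ (-319 / 20 : ℝ) ≤ κ * 1 := mul_le_mul_of_nonneg_left hLq hκ0.le
          linarith
      · have h1 := hA.half 0 _ ⟨k1.2.1, k1.2.2⟩ ha0
        have h2 : A0 / 2 ≤ e0 := by rw [he0]; linarith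
        have h3 : 1 / (4 * A0) ≤ e0 / (2 * A0 ^ 2) := aux_div hA0 h2
        have h4 : κ * L ^ (-319 / 20 : ℝ) ≤ κ * 1 := mul_le_mul_of_nonneg_left hLq hκ0.le
        linarith
    have hv : C10 * L ^ (-(161 / 10) : ℝ) / (2 * A0 ^ 2) +
        C11 * L ^ (-(161 / 10) : ℝ) / (2 * A1 ^ 2) = K1 * L ^ (-(161 / 10) : ℝ) := by
      rw [hK1]; ring
    have hsub0 : (e0 + c10 * t1 - C10 * L ^ (-(161 / 10) : ℝ)) / (2 * A0 ^ 2) =
      (e0 + c10 * t1) / (2 * A0 ^ 2) - C10 * L ^ (-(161 / 10) : ℝ) / (2 * A0 ^ 2) := sub_div _ _ _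
    have hsub1 : (e1 + c11 * t2 - C11 * L ^ (-(161 / 10) : ℝ)) / (2 * A1 ^ 2) =
      (e1 + c11 * t2) / (2 * A1 ^ 2) - C11 * L ^ (-(161 / 10) : ℝ) / (2 * A1 ^ 2) := sub_div _ _ _
    rw [hsub0, hsub1] at hlow
    have hfin : csum + κ * L ^ (-319 / 20 : ℝ) - K1 * L ^ (-(161 / 10) : ℝ) ≤ cD D y1 y2 := by
      show (1 / A0 + 1 / A1) / 2 + κ * L ^ (-319 / 20 : ℝ) - K1 * L ^ (-(161 / 10) : ℝ) ≤
        cE (Gt D y1 y1) (Gt D y2 y2) (Gt D y1 y2)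
      linarith
    have e9 : κ / 2 * L ^ (-319 / 20 : ℝ) + κ / 4 * L ^ (-319 / 20 : ℝ) +
        κ / 4 * L ^ (-319 / 20 : ℝ) = κ * L ^ (-319 / 20 : ℝ) := by ring
    linarith

end LEP.W1
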